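import Pool.Agent.H503R3.FR.Stmts

/-! Task Parity: even and odd part of a polynomial in `k[X 0, X 1, X 2]` with respect to the total
degree in `X 1, X 2`. -/

set_option autoImplicit false

open MvPolynomial

namespace H503R3.FR.Parity768

variable {k : Type} [Field k]

open Classical in
/-- The part of `f` supported on `P`. -/
noncomputable def part (P : (Fin 3 →₀ ℕ) → Prop) (f : D k) : D k :=
  ∑ m ∈ f.support, monomial m (if P m then coeff m f else 0)

open Classical in
theorem coeff_part (P : (Fin 3 →₀ ℕ) → Prop) (f : D k) (m : Fin 3 →₀ ℕ) :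
    coeff m (part P f) = if P m then coeff m f else 0 := by
  unfold part
  rw [coeff_sum]
  simp only [coeff_monomial]
  rw [Finset.sum_ite_eq' f.support m (fun x => if P x then coeff x f else 0)]
  by_cases h : m ∈ f.support
  · simp [h]
  · have h0 : coeff m f = 0 := by simpa [mem_support_iff] using h
    simp [h, h0]

/-- `part P` as an additive map. -/
noncomputable def partHom (P : (Fin 3 →₀ ℕ) → Prop) : D k →+ D k where
  toFun := part P
  map_zero' := by
    ext m
    rw [coeff_part]
    simp
  map_add' f g := by
    ext m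
    rw [coeff_part, coeff_add, coeff_add, coeff_part, coeff_part]
    split_ifs <;> simp

open Classical in
theorem coeff_partHom (P : (Fin 3 →₀ ℕ) → Prop) (f : D k) (m : Fin 3 →₀ ℕ) :
    coeff m (partHom P f) = if P m then coeff m f else 0 := coeff_part P f m

theorem partHom_mul (P Q : (Fin 3 →₀ ℕ) → Prop) (a f : D k)
    (h : ∀ m' ∈ a.support, ∀ m'', P (m' + m'') ↔ Q m'') :
    partHom P (a * f) = a * partHom Q f := by
  classical
  ext m
  rw [coeff_partHom, coeff_mul, coeff_mul]
  by_cases hm : P m
  · rw [if_pos hm]
    refine Finset.sum_congr rfl fun x hx => ?_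
    rw [coeff_partHom]
    by_cases hx0 : coeff x.1 a = 0
    · simp [hx0]
    · have h1 : x.1 ∈ a.support := by simpa [mem_support_iff] using hx0
      have h2 : x.1 + x.2 = m := by simpa using hx
      have h3 : Q x.2 := (h x.1 h1 x.2).1 (by rw [h2]; exact hm)
      rw [if_pos h3]
  · rw [if_neg hm]
    symm
    refine Finset.sum_eq_zero fun x hx => ?_
    rw [coeff_partHom]
    by_cases hx0 : coeff x.1 a = 0
    · simp [hx0]
    · have h1 : x.1 ∈ a.support := by simpa [mem_support_iff] using hx0
      have h2 : x.1 + x.2 = m := by simpa using hx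
      have h3 : ¬ Q x.2 := fun hq => hm (by rw [← h2]; exact (h x.1 h1 x.2).2 hq)
      rw [if_neg h3, mul_zero]

theorem partHom_eq_self (P : (Fin 3 →₀ ℕ) → Prop) (f : D k) (h : ∀ m ∈ f.support, P m) :
    partHom P f = f := by
  classical
  ext m
  rw [coeff_partHom]
  by_cases hm : coeff m f = 0
  · simp [hm]
  · rw [if_pos (h m (by simpa [mem_support_iff] using hm))]

theorem partHom_eq_zero (P : (Fin 3 →₀ ℕ) → Prop) (f : D k) (h : ∀ m ∈ f.support, ¬ P m) :
    partHom P f = 0 := by
  classical
  ext m
  rw [coeff_partHom]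
  by_cases hm : coeff m f = 0
  · simp [hm]
  · rw [if_neg (h m (by simpa [mem_support_iff] using hm)), coeff_zero]

theorem support_partHom (P : (Fin 3 →₀ ℕ) → Prop) (f : D k) :
    ∀ m ∈ (partHom P f).support, P m := by
  classical
  intro m hm
  rw [mem_support_iff, coeff_partHom] at hm
  by_contra h
  exact hm (if_neg h)

theorem taskParity : TaskParity := by
  classical
  intro k _
  refine ⟨{
    p0 := partHom fun m => Even (m 1 + m 2)
    p1 := partHom fun m => Odd (m 1 + m 2)
    add := ?_
    ev := fun f => support_partHom _ f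
    od := fun f => support_partHom _ f
    p0_ev := fun f hf => partHom_eq_self _ f hf
    p1_ev := fun f hf => partHom_eq_zero _ f fun m hm => by
      rw [Nat.not_odd_iff_even]; exact hf m hm
    p0_od := fun f hf => partHom_eq_zero _ f fun m hm => by
      rw [Nat.not_even_iff_odd]; exact hf m hm
    p1_od := fun f hf => partHom_eq_self _ f hf
    ev_mul0 := fun a f ha => partHom_mul _ _ a f fun m' hm' m'' => ?_
    ev_mul1 := fun a f ha => partHom_mul _ _ a f fun m' hm' m'' => ?_
    od_mul0 := fun a f ha => partHom_mul _ _ a f fun m' hm' m'' => ?_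
    od_mul1 := fun a f ha => partHom_mul _ _ a f fun m' hm' m'' => ?_ }⟩
  · intro f
    ext m
    rw [coeff_add, coeff_partHom, coeff_partHom]
    by_cases h : Even (m 1 + m 2)
    · rw [if_pos h, if_neg (by rw [Nat.not_odd_iff_even]; exact h), add_zero]
    · rw [if_neg h, if_pos (by rw [← Nat.not_even_iff_odd]; exact h), zero_add]
  · have := ha m' hm'
    simp only [Finsupp.add_apply]
    rw [Nat.even_iff] at *
    rw [Nat.even_iff]
    omega
  · have := ha m' hm'
    simp only [Finsupp.add_apply]
    rw [Nat.even_iff] at this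
    rw [Nat.odd_iff, Nat.odd_iff]
    omega
  · have := ha m' hm'
    simp only [Finsupp.add_apply]
    rw [Nat.odd_iff] at this
    rw [Nat.even_iff, Nat.odd_iff]
    omega
  · have := ha m' hm'
    simp only [Finsupp.add_apply]
    rw [Nat.odd_iff] at this
    rw [Nat.odd_iff, Nat.even_iff]
    omega

end H503R3.FR.Parity768
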